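import Pool.Agent.Helper71.PR.Goals

/-!
# PR-PC: `A_i(G)` is invariant under conjugation
-/

set_option autoImplicit false

namespace Pool.Agent.Helper89.PR

open Pool.Agent.Helper71.PR

theorem pc_lem : G_PC := by
  intro G _ i x y hx
  obtain ⟨H, hH, hfin, r, hr, ⟨e⟩⟩ := hx
  have hc : (Subgroup.centralizer {x}).map (MulAut.conj y).toMonoidHom =
      Subgroup.centralizer {y * x * y⁻¹} := by
    ext g
    rw [Subgroup.mem_map]
    constructor
    · rintro ⟨c, hc, rfl⟩
      rw [Subgroup.mem_centralizer_iff] at hc ⊢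
      intro z hz
      rw [Set.mem_singleton_iff.1 hz]
      have h1 := hc x rfl
      change y * x * y⁻¹ * (y * c * y⁻¹) = y * c * y⁻¹ * (y * x * y⁻¹)
      calc y * x * y⁻¹ * (y * c * y⁻¹) = y * (x * c) * y⁻¹ := by group
        _ = y * (c * x) * y⁻¹ := by rw [h1]
        _ = y * c * y⁻¹ * (y * x * y⁻¹) := by group
    · intro hg
      rw [Subgroup.mem_centralizer_iff] at hg
      have h1 := hg _ rfl
      refine ⟨y⁻¹ * g * y, ?_, ?_⟩
      · rw [Subgroup.mem_centralizer_iff]
        intro z hz
        rw [Set.mem_singleton_iff.1 hz]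
        calc x * (y⁻¹ * g * y) = y⁻¹ * (y * x * y⁻¹ * g) * y := by group
          _ = y⁻¹ * (g * (y * x * y⁻¹)) * y := by rw [h1]
          _ = y⁻¹ * g * y * x := by group
      · change y * (y⁻¹ * g * y) * y⁻¹ = g
        group
  refine ⟨H.map (MulAut.conj y).toMonoidHom, ?_, ?_, r, hr, ⟨?_⟩⟩
  · rw [← hc]
    exact Subgroup.map_mono hH
  · rw [← hc]
    have h1 : (H.map (MulAut.conj y).toMonoidHom).relIndex
        ((Subgroup.centralizer {x}).map (MulAut.conj y).toMonoidHom) =
        H.relIndex (Subgroup.centralizer {x}) :=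
      Subgroup.relIndex_map_map_of_injective _ _ (MulAut.conj y).injective
    refine ⟨?_⟩
    have h2 := hfin.index_ne_zero
    change (H.map (MulAut.conj y).toMonoidHom).relIndex
        ((Subgroup.centralizer {x}).map (MulAut.conj y).toMonoidHom) ≠ 0
    rw [h1]
    exact h2
  · exact (H.equivMapOfInjective (MulAut.conj y).toMonoidHom (MulAut.conj y).injective).symm.trans e

end Pool.Agent.Helper89.PR
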