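import Pool.Agent.Helper71.PR.Goals

/-!
# PR-T: a regular element outside `A_{n-2}` gives a compact flat
-/

set_option autoImplicit false

namespace Pool.Agent.Helper89.PR

open Pool.Agent.Helper71.PR Matrix Module

/-- An abelian group with a proper homomorphism to a Euclidean space: the structure of the group and of the image. -/
theorem proper_hom {C : Type} [Group C] (hcomm : ∀ a b : C, a * b = b * a) {E : Type} [NormedAddCommGroup E]
    [NormedSpace ℝ E] [FiniteDimensional ℝ E] (φ : C → E) (hφ : ∀ a b, φ (a * b) = φ a + φ b)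
    (hfin : ∀ R : ℝ, {c | ‖φ c‖ ≤ R}.Finite) :
    (∃ f : Multiplicative (Fin (finrank ℝ (Submodule.span ℝ (Set.range φ))) → ℤ) →* C,
      Function.Injective f ∧ f.range.FiniteIndex) ∧
    ∃ R : ℝ, ∀ y ∈ Submodule.span ℝ (Set.range φ), ∃ c, ‖φ c - y‖ ≤ R := by
  let _ : CommGroup C := { (inferInstance : Group C) with mul_comm := hcomm }
  have hφ1 : φ 1 = 0 := by
    have h := hφ 1 1
    rw [mul_one] at h
    simpa using h
  let φ' : Additive C →+ E :=
    { toFun := fun c => φ c.toMul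
      map_zero' := hφ1
      map_add' := fun a b => hφ _ _ }
  let L : Submodule ℤ E := LinearMap.range φ'.toIntLinearMap
  have hL : (L : Set E) = Set.range φ := by
    ext x
    constructor
    · rintro ⟨c, rfl⟩
      exact ⟨c.toMul, rfl⟩
    · rintro ⟨c, rfl⟩
      exact ⟨Additive.ofMul c, rfl⟩
  have hmem : ∀ c, φ c ∈ L := fun c => ⟨Additive.ofMul c, rfl⟩
  have hfinL : {x : L | ‖x‖ ≤ 1}.Finite := by
    refine Set.Finite.subset ((hfin 1).image fun c => (⟨φ c, hmem c⟩ : L)) ?_
    rintro ⟨x, c, hc⟩ hx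
    refine ⟨c.toMul, ?_, ?_⟩
    · have : φ c.toMul = x := hc
      rw [Set.mem_ofPred_eq, this]
      exact hx
    · exact Subtype.ext hc
  have hdisc : DiscreteTopology L := by
    refine discreteTopology_iff_isOpen_singleton_zero.mpr ?_
    have hF : ({x : L | ‖x‖ ≤ 1} \ {0}).Finite := hfinL.subset Set.sdiff_subset
    have h1 : ({0} : Set L) = Metric.ball 0 1 ∩ ({x : L | ‖x‖ ≤ 1} \ {0})ᶜ := by
      ext x
      simp only [Set.mem_singleton_iff, Set.mem_inter_iff, Metric.mem_ball, dist_zero_right, Set.mem_compl_iff,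
        Set.mem_sdiff, Set.mem_ofPred_eq, not_and, not_not]
      constructor
      · rintro rfl
        exact ⟨by simp, fun _ => rfl⟩
      · rintro ⟨h, h'⟩
        exact h' h.le
    rw [h1]
    exact Metric.isOpen_ball.inter hF.isClosed.isOpen_compl
  have hrank : finrank ℝ (Submodule.span ℝ (Set.range φ)) = finrank ℤ L := by
    have hd : DiscreteTopology (Submodule.span ℤ (L : Set E)) := by
      rw [Submodule.span_eq]
      exact hdisc
    have h := Real.finrank_eq_int_finrank_of_discrete hd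
    rw [Set.finrank, Set.finrank, Submodule.span_eq, hL] at h
    exact h
  let b : Basis (Fin (finrank ℤ L)) ℤ L := Module.finBasis ℤ L
  have hδ : ∀ i, ∃ c : C, φ c = b i := by
    intro i
    have h : (b i : E) ∈ (L : Set E) := (b i).2
    rw [hL] at h
    exact h
  choose δ hδ using hδ
  let s : L →ₗ[ℤ] Additive C := b.constr ℤ fun i => Additive.ofMul (δ i)
  have hs : ∀ x : L, φ (s x).toMul = x := by
    intro x
    have h : φ'.toIntLinearMap.comp s = L.subtype := by
      refine b.ext fun i => ?_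
      rw [LinearMap.comp_apply]
      have h1 : s (b i) = Additive.ofMul (δ i) := b.constr_basis ℤ _ i
      rw [h1]
      exact hδ i
    exact LinearMap.congr_fun h x
  constructor
  · rw [hrank]
    let f : Multiplicative (Fin (finrank ℤ L) → ℤ) →* C :=
      { toFun := fun z => (s (b.equivFun.symm z.toAdd)).toMul
        map_one' := by
          rw [toAdd_one, map_zero, map_zero, toMul_zero]
        map_mul' := fun z z' => by
          rw [toAdd_mul, map_add, map_add, toMul_add] }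
    have hfx : ∀ x : L, f (Multiplicative.ofAdd (b.equivFun x)) = (s x).toMul := by
      intro x
      change (s (b.equivFun.symm (b.equivFun x))).toMul = _
      rw [LinearEquiv.symm_apply_apply]
    refine ⟨f, ?_, ?_⟩
    · intro z z' h
      have h1 : φ (s (b.equivFun.symm z.toAdd)).toMul = φ (s (b.equivFun.symm z'.toAdd)).toMul :=
        congrArg φ h
      rw [hs, hs] at h1
      have h2 := b.equivFun.symm.injective (Subtype.ext h1)
      exact h2
    · have hq : Finite (C ⧸ f.range) := by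
        have : Finite {c | ‖φ c‖ ≤ (0 : ℝ)} := (hfin 0).to_subtype
        refine Finite.of_surjective (fun t : {c | ‖φ c‖ ≤ (0 : ℝ)} => (QuotientGroup.mk t.1 : C ⧸ f.range)) ?_
        intro q
        obtain ⟨c, rfl⟩ := QuotientGroup.mk_surjective q
        have h1 := hs ⟨φ c, hmem c⟩
        have h2 := hφ (c * ((s ⟨φ c, hmem c⟩).toMul)⁻¹) ((s ⟨φ c, hmem c⟩).toMul)
        rw [inv_mul_cancel_right, h1] at h2
        refine ⟨⟨c * ((s ⟨φ c, hmem c⟩).toMul)⁻¹, ?_⟩, ?_⟩
        · have h3 : φ (c * ((s ⟨φ c, hmem c⟩).toMul)⁻¹) = 0 := by simpa using h2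
          rw [Set.mem_ofPred_eq, h3, norm_zero]
        · change (QuotientGroup.mk (c * ((s ⟨φ c, hmem c⟩).toMul)⁻¹) : C ⧸ f.range) = QuotientGroup.mk c
          rw [QuotientGroup.eq]
          refine ⟨Multiplicative.ofAdd (b.equivFun ⟨φ c, hmem c⟩), ?_⟩
          rw [hfx]
          rw [_root_.mul_inv_rev, inv_inv, inv_mul_cancel_right]
      exact Subgroup.finiteIndex_of_finite_quotient
  · refine ⟨∑ i, ‖(b i : E)‖, fun y hy => ?_⟩
    have h1 : Submodule.span ℝ (Set.range φ) ≤ Submodule.span ℝ (Set.range fun i => (b i : E)) := by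
      rw [Submodule.span_le]
      rintro _ ⟨c, rfl⟩
      have h2 := b.sum_repr ⟨φ c, hmem c⟩
      have h3 := congrArg (Subtype.val) h2
      rw [SetLike.mem_coe]
      have h4 : φ c = ∑ i, ((b.repr ⟨φ c, hmem c⟩ i : ℤ) : ℝ) • (b i : E) := by
        refine h3.symm.trans ?_
        rw [Submodule.coe_sum]
        refine Finset.sum_congr rfl fun i _ => ?_
        rw [Submodule.coe_smul, Int.cast_smul_eq_zsmul]
      rw [h4]
      exact Submodule.sum_mem _ fun i _ => Submodule.smul_mem _ _ (Submodule.subset_span ⟨i, rfl⟩)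
    obtain ⟨c, hc⟩ := (Submodule.mem_span_range_iff_exists_fun ℝ).1 (h1 hy)
    let z : L := ∑ i, ⌊c i⌋ • b i
    have hz : (z : E) = ∑ i, ((⌊c i⌋ : ℤ) : ℝ) • (b i : E) := by
      simp [z, Int.cast_smul_eq_zsmul]
    refine ⟨(s z).toMul, ?_⟩
    rw [hs, hz, ← hc, ← Finset.sum_sub_distrib]
    refine (norm_sum_le _ _).trans (Finset.sum_le_sum fun i _ => ?_)
    rw [← sub_smul, norm_smul]
    have h2 : ‖((⌊c i⌋ : ℤ) : ℝ) - c i‖ ≤ 1 := by
      rw [Real.norm_eq_abs, abs_le]
      constructor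
      · linarith [Int.lt_floor_add_one (c i)]
      · linarith [Int.floor_le (c i)]
    exact mul_le_of_le_one_left (norm_nonneg _) h2

section

variable {n : ℕ} {Γ : Subgroup (SLn n)}

/-- the matrix of `δ` in the frame `k` -/
noncomputable def cj (k : Mt n) (δ : Γ) : Mt n := k⁻¹ * δ.1.1 * k

theorem cj_mul {k : Mt n} (hk : k.det ≠ 0) (δ δ' : Γ) : cj k (δ * δ') = cj k δ * cj k δ' := by
  have h : k * k⁻¹ = 1 := Matrix.mul_nonsing_inv k (isUnit_iff_ne_zero.2 hk)
  have h1 : (δ * δ').1.1 = δ.1.1 * δ'.1.1 := rfl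
  unfold cj
  rw [h1]
  calc k⁻¹ * (δ.1.1 * δ'.1.1) * k = k⁻¹ * δ.1.1 * 1 * δ'.1.1 * k := by
        rw [Matrix.mul_one, ← Matrix.mul_assoc k⁻¹]
    _ = k⁻¹ * δ.1.1 * (k * k⁻¹) * δ'.1.1 * k := by rw [h]
    _ = k⁻¹ * δ.1.1 * k * (k⁻¹ * δ'.1.1 * k) := by simp only [Matrix.mul_assoc]

theorem cj_back {k : Mt n} (hk : k.det ≠ 0) (δ : Γ) : k * cj k δ * k⁻¹ = δ.1.1 := by
  have h : k * k⁻¹ = 1 := Matrix.mul_nonsing_inv k (isUnit_iff_ne_zero.2 hk)
  unfold cj
  calc k * (k⁻¹ * δ.1.1 * k) * k⁻¹ = (k * k⁻¹) * δ.1.1 * (k * k⁻¹) := by simp only [Matrix.mul_assoc]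
    _ = δ.1.1 := by rw [h, Matrix.one_mul, Matrix.mul_one]

theorem cj_inj {k : Mt n} (hk : k.det ≠ 0) {δ δ' : Γ} (h : cj k δ = cj k δ') : δ = δ' := by
  apply Subtype.ext
  apply Subtype.ext
  rw [← cj_back hk δ, ← cj_back hk δ', h]

theorem cj_diag {k : Mt n} {μ : Fin n → ℝ} {γ : Γ} (h : RegF γ.1.1 k μ) {δ : Γ}
    (hδ : δ ∈ Subgroup.centralizer {γ}) : cj k δ = diagonal fun i => cj k δ i i := by
  obtain ⟨hk, hγ, hμ⟩ := h
  have hk' : k⁻¹ * k = 1 := Matrix.nonsing_inv_mul k (isUnit_iff_ne_zero.2 hk)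
  have h1 : cj k γ = diagonal μ := by
    unfold cj
    rw [hγ]
    calc k⁻¹ * (k * diagonal μ * k⁻¹) * k = (k⁻¹ * k) * diagonal μ * (k⁻¹ * k) := by
          simp only [Matrix.mul_assoc]
      _ = diagonal μ := by rw [hk', Matrix.one_mul, Matrix.mul_one]
  have h2 : γ * δ = δ * γ := (Subgroup.mem_centralizer_iff.1 hδ) γ (Set.mem_singleton _)
  have h3 : diagonal μ * cj k δ = cj k δ * diagonal μ := by
    rw [← h1, ← cj_mul hk, ← cj_mul hk, h2]
  ext i j
  by_cases hij : i = j
  · subst hij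
    rw [diagonal_apply_eq]
  · rw [diagonal_apply_ne _ hij]
    have h4 := congrFun (congrFun h3 i) j
    rw [diagonal_mul, mul_diagonal] at h4
    have h5 : μ i ≠ μ j := by
      intro h6
      rcases lt_or_gt_of_ne hij with h7 | h7
      · have := hμ i j h7
        rw [h6] at this
        exact lt_irrefl _ this
      · have := hμ j i h7
        rw [h6] at this
        exact lt_irrefl _ this
    have h6 : (μ i - μ j) * cj k δ i j = 0 := by
      rw [sub_mul, h4]
      ring
    exact (mul_eq_zero.1 h6).resolve_left (sub_ne_zero.2 h5)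

theorem cj_prod {k : Mt n} {μ : Fin n → ℝ} {γ : Γ} (h : RegF γ.1.1 k μ) {δ : Γ}
    (hδ : δ ∈ Subgroup.centralizer {γ}) : ∏ i, cj k δ i i = 1 := by
  have hk := h.1
  have h1 : (cj k δ).det = 1 := by
    unfold cj
    rw [det_mul, det_mul, δ.1.2, mul_one, mul_comm, ← det_mul,
      Matrix.mul_nonsing_inv k (isUnit_iff_ne_zero.2 hk), det_one]
  rw [cj_diag h hδ, det_diagonal] at h1
  exact h1

theorem cj_ne {k : Mt n} {μ : Fin n → ℝ} {γ : Γ} (h : RegF γ.1.1 k μ) {δ : Γ}
    (hδ : δ ∈ Subgroup.centralizer {γ}) (i : Fin n) : cj k δ i i ≠ 0 := by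
  intro h0
  have h1 := cj_prod h hδ
  rw [Finset.prod_eq_zero (f := fun i => cj k δ i i) (Finset.mem_univ i) h0] at h1
  exact zero_ne_one h1

end

theorem t_lem : G_T := by
  intro n hn Γ hLF γ hγ k μ hreg
  have hk := hreg.1
  let φ : Subgroup.centralizer {γ} → (Fin n → ℝ) := fun δ i => Real.log |cj k δ.1 i i|
  have hcomm : ∀ a b : Subgroup.centralizer ({γ} : Set Γ), a * b = b * a := by
    intro a b
    apply Subtype.ext
    apply cj_inj hk
    rw [Subgroup.coe_mul, Subgroup.coe_mul, cj_mul hk, cj_mul hk, cj_diag hreg a.2, cj_diag hreg b.2,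
      diagonal_mul_diagonal, diagonal_mul_diagonal]
    congr 1
    funext i
    exact mul_comm _ _
  have hφ : ∀ a b, φ (a * b) = φ a + φ b := by
    intro a b
    funext i
    change Real.log |cj k (a.1 * b.1) i i| = Real.log |cj k a.1 i i| + Real.log |cj k b.1 i i|
    rw [cj_mul hk]
    have h1 : (cj k a.1 * cj k b.1) i i = cj k a.1 i i * cj k b.1 i i := by
      conv_lhs => rw [cj_diag hreg a.2, diagonal_mul]
    rw [h1, abs_mul, Real.log_mul (abs_ne_zero.2 (cj_ne hreg a.2 i)) (abs_ne_zero.2 (cj_ne hreg b.2 i))]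
  have hfin : ∀ R : ℝ, {c | ‖φ c‖ ≤ R}.Finite := by
    intro R
    have h1 := hLF (∑ i, ∑ j, ∑ a, |k i a| * Real.exp R * |k⁻¹ a j|)
    have h2 : Function.Injective fun δ : Subgroup.centralizer ({γ} : Set Γ) => δ.1.1 := by
      intro a b h
      exact Subtype.ext (Subtype.ext h)
    refine Set.Finite.subset (h1.preimage h2.injOn) ?_
    intro δ hδ
    rw [Set.mem_ofPred_eq] at hδ
    refine ⟨δ.1.2, fun i j => ?_⟩
    have h3 : ∀ a, |cj k δ.1 a a| ≤ Real.exp R := by
      intro a
      have h4 : Real.log |cj k δ.1 a a| ≤ R :=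
        ((le_abs_self _).trans (norm_le_pi_norm (φ δ) a)).trans hδ
      have h5 : 0 < |cj k δ.1 a a| := abs_pos.2 (cj_ne hreg δ.2 a)
      rwa [Real.log_le_iff_le_exp h5] at h4
    have h4 : δ.1.1.1 i j = ∑ a, k i a * cj k δ.1 a a * k⁻¹ a j := by
      conv_lhs => rw [← cj_back hk δ.1, cj_diag hreg δ.2]
      rw [Matrix.mul_apply]
      refine Finset.sum_congr rfl fun a _ => ?_
      rw [mul_diagonal]
    change |δ.1.1.1 i j| ≤ _
    rw [h4]
    have h5 : |∑ a, k i a * cj k δ.1 a a * k⁻¹ a j| ≤ ∑ a, |k i a| * Real.exp R * |k⁻¹ a j| := by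
      refine (Finset.abs_sum_le_sum_abs _ _).trans (Finset.sum_le_sum fun a _ => ?_)
      rw [abs_mul, abs_mul]
      exact mul_le_mul_of_nonneg_right (mul_le_mul_of_nonneg_left (h3 a) (abs_nonneg _)) (abs_nonneg _)
    refine h5.trans ?_
    have hnn : ∀ i j, 0 ≤ ∑ a, |k i a| * Real.exp R * |k⁻¹ a j| := fun i j =>
      Finset.sum_nonneg fun a _ => mul_nonneg (mul_nonneg (abs_nonneg _) (Real.exp_pos R).le) (abs_nonneg _)
    exact (Finset.single_le_sum (f := fun j => ∑ a, |k i a| * Real.exp R * |k⁻¹ a j|)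
      (fun j _ => hnn i j) (Finset.mem_univ j)).trans
      (Finset.single_le_sum (f := fun i => ∑ j, ∑ a, |k i a| * Real.exp R * |k⁻¹ a j|)
      (fun i _ => Finset.sum_nonneg fun j _ => hnn i j) (Finset.mem_univ i))
  obtain ⟨⟨f, hf1, hf2⟩, R, hR⟩ := proper_hom hcomm φ hφ hfin
  by_cases hr : finrank ℝ (Submodule.span ℝ (Set.range φ)) ≤ n - 2
  · exfalso
    apply hγ
    have hsub : (f.range.map (Subgroup.centralizer ({γ} : Set Γ)).subtype).subgroupOf
        (Subgroup.centralizer {γ}) = f.range :=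
      Subgroup.comap_map_eq_self_of_injective (Subgroup.subtype_injective _) _
    refine ⟨f.range.map (Subgroup.centralizer ({γ} : Set Γ)).subtype, Subgroup.map_subtype_le _, ?_,
      finrank ℝ (Submodule.span ℝ (Set.range φ)), hr, ⟨?_⟩⟩
    · rw [hsub]
      exact hf2
    · exact ((MonoidHom.ofInjective hf1).trans (f.range.equivMapOfInjective
        (Subgroup.centralizer ({γ} : Set Γ)).subtype (Subgroup.subtype_injective _))).symm
  · let S : (Fin n → ℝ) →ₗ[ℝ] ℝ :=
      { toFun := fun y => ∑ i, y i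
        map_add' := fun x y => by simp [Finset.sum_add_distrib]
        map_smul' := fun c y => by simp [Finset.mul_sum] }
    have hS : S ≠ 0 := by
      intro h
      have h1 : S (fun _ => 1) = 0 := by rw [h]; rfl
      have h2 : S (fun _ => 1) = (n : ℝ) := by
        change ∑ i : Fin n, (1 : ℝ) = n
        simp
      rw [h2] at h1
      have : n = 0 := by exact_mod_cast h1
      omega
    have h1 : finrank ℝ (LinearMap.ker S) + 1 = finrank ℝ (Fin n → ℝ) :=
      Module.Dual.finrank_ker_add_one_of_ne_zero hS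
    rw [Module.finrank_fin_fun] at h1
    have h2 : Submodule.span ℝ (Set.range φ) ≤ LinearMap.ker S := by
      rw [Submodule.span_le]
      rintro _ ⟨δ, rfl⟩
      rw [SetLike.mem_coe, LinearMap.mem_ker]
      change ∑ i, Real.log |cj k δ.1 i i| = 0
      rw [← Real.log_prod (fun i _ => abs_ne_zero.2 (cj_ne hreg δ.2 i)), ← Finset.abs_prod, cj_prod hreg δ.2,
        abs_one, Real.log_one]
    have h3 : Submodule.span ℝ (Set.range φ) = LinearMap.ker S :=
      Submodule.eq_of_le_of_finrank_le h2 (by omega)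
    refine ⟨R, fun y hy => ?_⟩
    obtain ⟨c, hc⟩ := hR y (by rw [h3, LinearMap.mem_ker]; exact hy)
    refine ⟨c.1.1, c.1.2, fun i => cj k c.1 i i, ?_, fun i => ?_⟩
    · rw [← cj_diag hreg c.2, cj_back hk]
    · have h4 := (norm_le_pi_norm (φ c - y) i).trans hc
      rw [Real.norm_eq_abs] at h4
      exact h4

end Pool.Agent.Helper89.PR
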